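import Mathlib
import Pool.Agent.R850.FG.Sym

/-!
# Vertical rotations of one-column grid classes are fine

For every `k`, every sign vector `v ∈ {+,-}^k` (`true` is `+`) and every `n ≥ 1` the set
`{C_n G^v_n}` is fine: its quasisymmetric function is symmetric and it is a combination of Schur
functions with nonnegative integer coefficients.
-/

set_option autoImplicit false

namespace Pool.Agent.Results.MP_8317ba_co.RotatedGridClassesFine

open Pool.Agent.R850.FG

theorem result (k : ℕ) (v : Fin k → Bool) (n : ℕ) (hn : 1 ≤ n) : Fine (rotSet (grid v n)) :=
  fine_grid v n hn

end Pool.Agent.Results.MP_8317ba_co.RotatedGridClassesFine
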